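import Mathlib

namespace Pool.Agent.Results.MP_4155d9_nt.HalfDensity

open Finset PowerSeries Filter Topology

/-- the series 1 + x^a + x^(2a) + ... = 1/(1 - x^a) -/
noncomputable def geo (R : Type) [Semiring R] (a : ℕ) : PowerSeries R :=
  PowerSeries.mk fun n => if a ∣ n then 1 else 0

/-- number of partitions of n into (coloured) parts A 0, ..., A (k-1) -/
noncomputable def pA (A : ℕ → ℕ) (n k : ℕ) : ℕ :=
  PowerSeries.coeff n (∏ i ∈ range k, geo ℕ (A i))

/-- the sequence 1, 2^j, 2^j, 2^(j+1), 2^(j+2), ... -/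
def fam (j : ℕ) : ℕ → ℕ
  | 0 => 1
  | 1 => 2 ^ j
  | i + 2 => 2 ^ (j + i)

lemma geo_mul (a : ℕ) (ha : 0 < a) : geo (ZMod 2) a * (1 - X ^ a) = 1 := by
  ext n
  rw [mul_sub, mul_one, map_sub, coeff_mul_X_pow', coeff_one]
  simp only [geo, coeff_mk]
  by_cases h : a ≤ n
  · rw [if_pos h, if_neg (by omega : ¬ n = 0)]
    have : a ∣ n - a ↔ a ∣ n := (Nat.dvd_sub_iff_left h dvd_rfl)
    simp [this]
  · rw [if_neg h]
    by_cases h0 : n = 0
    · simp [h0]
    · rw [if_neg h0, if_neg (fun hd => h (Nat.le_of_dvd (by omega) hd))]; simp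

lemma geo_sq (a : ℕ) (ha : 0 < a) : geo (ZMod 2) a * geo (ZMod 2) a = geo (ZMod 2) (2 * a) := by
  have h1 := geo_mul a ha
  have h2 := geo_mul (2 * a) (by omega)
  have h3 : (2 : PowerSeries (ZMod 2)) = 0 := by
    have : (2 : PowerSeries (ZMod 2)) = C (2 : ZMod 2) := by simp [map_ofNat]
    rw [this, show (2 : ZMod 2) = 0 from rfl, map_zero]
  have h4 : (1 - X ^ (2 * a) : PowerSeries (ZMod 2)) = (1 - X ^ a) ^ 2 := by
    linear_combination (X ^ a - X ^ (2 * a)) * h3
  rw [h4] at h2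
  linear_combination (-(geo (ZMod 2) a * geo (ZMod 2) a)) * h2 +
    geo (ZMod 2) (2 * a) * (geo (ZMod 2) a * (1 - X ^ a) + 1) * h1

lemma prod_fam (j k : ℕ) :
    ∏ i ∈ range (k + 2), geo (ZMod 2) (fam j i) = geo (ZMod 2) 1 * geo (ZMod 2) (2 ^ (j + k)) := by
  induction k with
  | zero => simp [prod_range_succ, fam]
  | succ k ih =>
    rw [show k + 1 + 2 = (k + 2) + 1 by ring, prod_range_succ, ih, mul_assoc,
      show fam j (k + 2) = 2 ^ (j + k) from rfl, geo_sq _ (by positivity)]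
    congr 2; ring

lemma two_geo (M : ℕ) (hM : 0 < M) :
    geo (ZMod 2) 1 * geo (ZMod 2) M = PowerSeries.mk fun n => ((n / M + 1 : ℕ) : ZMod 2) := by
  have h1 := geo_mul M hM
  have h2 : (PowerSeries.mk fun n => ((n / M + 1 : ℕ) : ZMod 2)) * (1 - X ^ M) = geo (ZMod 2) 1 := by
    ext n
    rw [mul_sub, mul_one, map_sub, coeff_mul_X_pow']
    simp only [geo, coeff_mk, one_dvd, if_true]
    by_cases h : M ≤ n
    · rw [if_pos h, Nat.div_eq_sub_div hM h]; push_cast; ring
    · rw [if_neg h, Nat.div_eq_of_lt (by omega)]; simp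
  rw [← h2, mul_assoc, mul_comm (1 - X ^ M), h1, mul_one]

lemma odd_iff (j k n : ℕ) : Odd (pA (fam j) n (k + 2)) ↔ (n / 2 ^ (j + k)) % 2 = 0 := by
  have hm : PowerSeries.map (Nat.castRingHom (ZMod 2)) (∏ i ∈ range (k + 2), geo ℕ (fam j i)) =
      ∏ i ∈ range (k + 2), geo (ZMod 2) (fam j i) := by
    rw [map_prod]
    refine prod_congr rfl fun i _ => ?_
    ext m
    simp [geo]
  have h := congrArg (PowerSeries.coeff n) hm
  rw [coeff_map, prod_fam, two_geo _ (by positivity), coeff_mk] at h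
  have h' : ((pA (fam j) n (k + 2) : ℕ) : ZMod 2) = ((n / 2 ^ (j + k) + 1 : ℕ) : ZMod 2) := h
  rw [ZMod.natCast_eq_natCast_iff'] at h'
  rw [Nat.odd_iff]; omega

lemma cnt_le (M N r s : ℕ) (hM : 0 < M) (hrs : (r + 1) % 2 = s) :
    ((range N).filter fun n => (n / M) % 2 = r).card ≤
      ((range N).filter fun n => (n / M) % 2 = s).card + M := by
  calc _ ≤ (((range N).filter fun n => (n / M) % 2 = s) ∪ Ico N (N + M)).card := by
        apply card_le_card_of_injOn (fun n => n + M)
        · intro n hn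
          simp only [coe_filter, mem_range, Set.mem_setOf_eq, coe_union, coe_Ico, Set.mem_union,
            Set.mem_Ico] at hn ⊢
          rw [Nat.add_div_right _ hM]
          omega
        · intro x _ y _ h
          simpa using h
    _ ≤ _ := (card_union_le _ _).trans (by simp)

theorem result : Function.Injective fam ∧ ∀ j : ℕ, (∀ i, 0 < fam j i) ∧
    (∀ d : ℕ, (∀ i, d ∣ fam j i) → d = 1) ∧
    ∀ k : ℕ, 2 ≤ k → Tendsto (fun N : ℕ =>
      ((((range (N + 1)).filter fun n => Odd (pA (fam j) n k)).card : ℝ) / N)) atTop (𝓝 (1 / 2)) := by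
  refine ⟨fun i j h => Nat.pow_right_injective le_rfl (congrFun h 1), fun j => ⟨?_, ?_, ?_⟩⟩
  · intro i
    match i with
    | 0 => simp [fam]
    | 1 => simp [fam]
    | i + 2 => simp [fam]
  · intro d hd
    exact Nat.dvd_one.1 (hd 0)
  · intro k hk
    obtain ⟨k, rfl⟩ : ∃ k', k = k' + 2 := ⟨k - 2, by omega⟩
    simp only [odd_iff]
    set M := 2 ^ (j + k) with hMdef
    have hM : 0 < M := by positivity
    have lim : ∀ c : ℝ, Tendsto (fun N : ℕ => 1 / 2 + c / (N : ℝ)) atTop (𝓝 (1 / 2)) := by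
      intro c
      simpa using (tendsto_const_div_atTop_nhds_zero_nat c).const_add (1 / 2 : ℝ)
    refine tendsto_of_tendsto_of_tendsto_of_le_of_le' (lim (-(M : ℝ))) (lim ((M : ℝ) + 1)) ?_ ?_
    all_goals
      filter_upwards [eventually_gt_atTop 0] with N hN
      have a1 := cnt_le M (N + 1) 0 1 hM rfl
      have a2 := cnt_le M (N + 1) 1 0 hM rfl
      have a3 := card_filter_add_card_filter_not (s := range (N + 1)) (fun n => (n / M) % 2 = 0)
      have a4 : ((range (N + 1)).filter fun n => ¬ (n / M) % 2 = 0) =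
          (range (N + 1)).filter fun n => (n / M) % 2 = 1 := filter_congr fun n _ => by omega
      rw [a4, card_range] at a3
      have hN' : (0 : ℝ) < N := by exact_mod_cast hN
      have b1 : (2 : ℝ) * ((range (N + 1)).filter fun n => (n / M) % 2 = 0).card ≤ N + 1 + M := by
        exact_mod_cast (by omega)
      have b2 : (N : ℝ) + 1 ≤ 2 * ((range (N + 1)).filter fun n => (n / M) % 2 = 0).card + M := by
        exact_mod_cast (by omega)
      have hM' : (0 : ℝ) ≤ M := by positivity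
      have e : ∀ c : ℝ, 1 / 2 + c / (N : ℝ) = (N / 2 + c) / N := fun c => by field_simp
      rw [e]
      apply div_le_div_of_nonneg_right _ hN'.le
      linarith

end Pool.Agent.Results.MP_4155d9_nt.HalfDensity
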